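import Mathlib
import Pool.Agent.Helper31.GZ.Final

/-!
The homotopy form of the obstruction: no p.l. embedding of `L` in `K × I` is a homotopy
equivalence.
-/

set_option autoImplicit false

namespace Pool.Agent.Y105.GZE

open Set Pool.Agent.Helper31.GZ

/-- A continuous map between subsets of normed spaces is a p.l. embedding if it is injective and
piecewise linear. -/
def IsPLEmbedding {E F : Type*} [NormedAddCommGroup E] [NormedSpace ℝ E]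
    [NormedAddCommGroup F] [NormedSpace ℝ F] {P : Set E} {Q : Set F} (e : C(P, Q)) : Prop :=
  Function.Injective e ∧ ∃ g : E → F, IsPLOn g P ∧ ∀ x : P, (e x : F) = g x

theorem matching (p q : Params)
    (hpoly : ∀ k, IsPolyhedron (Sph (q.α k) (q.m k) (q.β k)))
    (e : C(Neck q, (Neck p ×ˢ Icc (0 : ℝ) 1 : Set ((Fin 3 → ℝ) × ℝ))))
    (he : IsPLEmbedding e)
    (r : C((Neck p ×ˢ Icc (0 : ℝ) 1 : Set ((Fin 3 → ℝ) × ℝ)), Neck q))
    (hr : (e.comp r).Homotopic (ContinuousMap.id _)) :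
    ∃ (g : (Fin 3 → ℝ) → (Fin 3 → ℝ) × ℝ) (σ : Fin 4 → Fin 4), Function.Bijective σ ∧
      ∀ k, ∀ y ∈ Sph (q.α k) (q.m k) (q.β k), p.α (σ k) ≤ (g y).1 0 ∧ (g y).1 0 ≤ p.β (σ k) := by
  obtain ⟨hinj, g, hg, heg⟩ := he
  have hmem : ∀ y ∈ Neck q, g y ∈ Neck p ×ˢ Icc (0 : ℝ) 1 := by
    intro y hy
    rw [← heg ⟨y, hy⟩]
    exact (e ⟨y, hy⟩).2
  have hgi : InjOn g (Neck q) := by
    intro x hx y hy hxy
    have h1 : e ⟨x, hx⟩ = e ⟨y, hy⟩ := by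
      apply Subtype.ext
      rw [heg, heg]
      exact hxy
    exact congrArg Subtype.val (hinj h1)
  have hsub : g '' Neck q ⊆ Neck p ×ˢ Icc (0 : ℝ) 1 := by
    rintro _ ⟨y, hy, rfl⟩
    exact hmem y hy
  let gq : C(Neck q, g '' Neck q) := ⟨fun x => ⟨g x, x, x.2, rfl⟩,
    (continuousOn_iff_continuous_domRestrict.1 hg.1).subtype_mk _⟩
  have hret : DefRet (Neck p ×ˢ Icc (0 : ℝ) 1) (g '' Neck q) := by
    refine ⟨hsub, gq.comp r, ?_⟩
    have e1 : (⟨Set.inclusion hsub, continuous_inclusion hsub⟩ :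
        C(g '' Neck q, (Neck p ×ˢ Icc (0 : ℝ) 1 : Set ((Fin 3 → ℝ) × ℝ)))).comp (gq.comp r) =
        e.comp r := by
      ext x : 1
      apply Subtype.ext
      exact (heg (r x)).symm
    rw [e1]
    exact hr.symm
  obtain ⟨σ, hσ, h⟩ := exists_matching p q g hpoly hg hgi (fun y hy => (hmem y hy).1) hret
  exact ⟨g, σ, hσ, h⟩

/-- No p.l. embedding of `L` in `K × I` has a right homotopy inverse. -/
theorem no_emb_K (e : C(Neck pL, (Neck pK ×ˢ Icc (0 : ℝ) 1 : Set ((Fin 3 → ℝ) × ℝ))))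
    (he : IsPLEmbedding e) :
    ¬ ∃ r : C((Neck pK ×ˢ Icc (0 : ℝ) 1 : Set ((Fin 3 → ℝ) × ℝ)), Neck pL),
      (e.comp r).Homotopic (ContinuousMap.id _) := by
  rintro ⟨r, hr⟩
  obtain ⟨g, σ, hσ, h⟩ := matching pK pL (fun k => isPolyhedron_Sph (pL.ab k)) e he r hr
  -- the touching points
  have t0 : pt (-3) ∈ Sph (pL.α 0) (pL.m 0) (pL.β 0) := by
    apply pt_mem_Sph <;> simp [pL] <;> norm_num
  have t1 : pt (-3) ∈ Sph (pL.α 1) (pL.m 1) (pL.β 1) := by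
    apply pt_mem_Sph <;> simp [pL] <;> norm_num
  have t2 : pt 2 ∈ Sph (pL.α 2) (pL.m 2) (pL.β 2) := by
    apply pt_mem_Sph <;> simp [pL]
  have t3 : pt 2 ∈ Sph (pL.α 3) (pL.m 3) (pL.β 3) := by
    apply pt_mem_Sph <;> simp [pL] <;> norm_num
  have a0 := h 0 _ t0
  have a1 := h 1 _ t1
  have a2 := h 2 _ t2
  have a3 := h 3 _ t3
  have key : ∀ (a b : Fin 4) (x : ℝ), a ≠ b → pK.α a ≤ x ∧ x ≤ pK.β a →
      pK.α b ≤ x ∧ x ≤ pK.β b → a ≠ 3 := by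
    intro a b x hab h1 h2 h3
    subst h3
    fin_cases b <;> simp [pK] at hab h1 h2 <;> linarith
  obtain ⟨k, hk⟩ := hσ.2 3
  fin_cases k
  · exact key (σ 0) (σ 1) _ (fun e => absurd (hσ.1 e) (by decide)) a0 a1 hk
  · exact key (σ 1) (σ 0) _ (fun e => absurd (hσ.1 e) (by decide)) a1 a0 hk
  · exact key (σ 2) (σ 3) _ (fun e => absurd (hσ.1 e) (by decide)) a2 a3 hk
  · exact key (σ 3) (σ 2) _ (fun e => absurd (hσ.1 e) (by decide)) a3 a2 hk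

/-- No p.l. embedding of `K` in `L × I` has a right homotopy inverse. -/
theorem no_emb_L (e : C(Neck pK, (Neck pL ×ˢ Icc (0 : ℝ) 1 : Set ((Fin 3 → ℝ) × ℝ))))
    (he : IsPLEmbedding e) :
    ¬ ∃ r : C((Neck pL ×ˢ Icc (0 : ℝ) 1 : Set ((Fin 3 → ℝ) × ℝ)), Neck pK),
      (e.comp r).Homotopic (ContinuousMap.id _) := by
  rintro ⟨r, hr⟩
  obtain ⟨g, σ, hσ, h⟩ := matching pL pK (fun k => isPolyhedron_Sph (pK.ab k)) e he r hr
  have t0 : pt (-3) ∈ Sph (pK.α 0) (pK.m 0) (pK.β 0) := by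
    apply pt_mem_Sph <;> simp [pK] <;> norm_num
  have t1 : pt (-3) ∈ Sph (pK.α 1) (pK.m 1) (pK.β 1) := by
    apply pt_mem_Sph <;> simp [pK] <;> norm_num
  have t2 : pt (-1) ∈ Sph (pK.α 1) (pK.m 1) (pK.β 1) := by
    apply pt_mem_Sph <;> simp [pK] <;> norm_num
  have t3 : pt (-1) ∈ Sph (pK.α 2) (pK.m 2) (pK.β 2) := by
    apply pt_mem_Sph <;> simp [pK] <;> norm_num
  have a0 := h 0 _ t0
  have a1 := h 1 _ t1
  have a2 := h 1 _ t2
  have a3 := h 2 _ t3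
  have key : ∀ (a b c : Fin 4) (x y : ℝ), a ≠ b → b ≠ c → a ≠ c → pL.α a ≤ x ∧ x ≤ pL.β a →
      pL.α b ≤ x ∧ x ≤ pL.β b → pL.α b ≤ y ∧ y ≤ pL.β b → pL.α c ≤ y ∧ y ≤ pL.β c → False := by
    intro a b c x y hab hbc hac h1 h2 h3 h4
    fin_cases a <;> fin_cases b <;> fin_cases c <;>
      simp [pL] at hab hbc hac h1 h2 h3 h4 <;> linarith
  exact key (σ 0) (σ 1) (σ 2) _ _ (fun e => absurd (hσ.1 e) (by decide))
    (fun e => absurd (hσ.1 e) (by decide)) (fun e => absurd (hσ.1 e) (by decide)) a0 a1 a2 a3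

end Pool.Agent.Y105.GZE
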